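import Pool.Agent.MP_3ad207_lc.H43.LinSpec
import Pool.Agent.MP_3ad207_lc.H41.T1

/-! One side of a large good family of ears can be made spread or star. -/

set_option autoImplicit false

namespace Pool.Agent.Ehf

namespace H15

variable {V : Type*} {G : SimpleGraph V} {S I : Set V}

section
variable (h : Setup G S I) {u v w x y : V}
include h

/-! ### the rooted tree -/

theorem sub_refl (hu : u ∈ HH S I) (hv : v ∈ HH S I) : v ∈ h.Sub u v :=
  ⟨hv, h.right_mem_hseg hu hv⟩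

theorem sub_top (hu : u ∈ HH S I) (hx : x ∈ h.Sub u v) : v ∈ HH S I :=
  h.hseg_subset_H hu hx.1 hx.2

theorem sub_trans (hu : u ∈ HH S I) (hx : x ∈ h.Sub u v) (hy : y ∈ h.Sub u x) : y ∈ h.Sub u v :=
  ⟨hy.1, h.hseg_subset_hseg hu hy.1 (h.left_mem_hseg hu hy.1) hy.2 hx.2⟩

theorem sub_depth (hu : u ∈ HH S I) (hx : x ∈ h.Sub u v) : h.hlen u v ≤ h.hlen u x :=
  (h.hpath_hlen_of_mem hu hx.1 hx.2).1

theorem sub_cmp (hu : u ∈ HH S I) (hv : x ∈ h.Sub u v) (hw : x ∈ h.Sub u w)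
    (hd : h.hlen u v ≤ h.hlen u w) : w ∈ h.Sub u v := by
  obtain ⟨a1, a2⟩ := h.hpath_hlen_of_mem hu hv.1 hv.2
  obtain ⟨b1, b2⟩ := h.hpath_hlen_of_mem hu hw.1 hw.2
  refine ⟨sub_top h hu hw, ?_⟩
  have := (h.hpath_sub_left hu hw.1 b1).2.2
  rw [b2] at this
  rw [this]
  exact ⟨_, Nat.zero_le _, hd, a2⟩

theorem sub_eq (hu : u ∈ HH S I) (hx : x ∈ h.Sub u v) (hd : h.hlen u x ≤ h.hlen u v) : x = v := by
  obtain ⟨a1, a2⟩ := h.hpath_hlen_of_mem hu hx.1 hx.2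
  rw [← a2, le_antisymm a1 hd, h.hpath_hlen hu hx.1]

theorem sub_lt (hu : u ∈ HH S I) (hx : x ∈ h.Sub u v) (hne : x ≠ v) : h.hlen u v < h.hlen u x :=
  lt_of_not_ge fun hd => hne (sub_eq h hu hx hd)

theorem conn_sub (hu : u ∈ HH S I) (hv : v ∈ HH S I) : Conn G (h.Sub u v) := by
  refine conn_of_root (sub_refl h hu hv) fun x hx => ?_
  refine ((h.conn_hseg hv hx.1).rin (h.left_mem_hseg hv hx.1) (h.right_mem_hseg hv hx.1)).mono ?_
  intro y hy
  have hyH := h.hseg_subset_H hv hx.1 hy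
  refine ⟨hyH, (h.mem_hseg_iff_hlen hu hv hyH).2 ?_⟩
  have a1 := (h.hseg_split hu hx.1 hx.2).1
  have a2 := (h.hseg_split hv hx.1 hy).1
  have a3 := h.hlen_triangle hu hyH hx.1
  have a4 := h.hlen_triangle hu hv hyH
  omega

/-- the child of `v` above `x` -/
theorem child (hu : u ∈ HH S I) (hx : x ∈ h.Sub u v) (hne : x ≠ v) :
    x ∈ h.Sub u (h.hpath u x (h.hlen u v + 1)) ∧ h.hpath u x (h.hlen u v + 1) ∈ h.Sub u v ∧
      h.hlen u (h.hpath u x (h.hlen u v + 1)) = h.hlen u v + 1 := by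
  have a1 := sub_lt h hu hx hne
  have a2 := (h.hpath_sub_left hu hx.1 (j := h.hlen u v + 1) a1).1
  have a3 : x ∈ h.Sub u (h.hpath u x (h.hlen u v + 1)) := ⟨hx.1, h.hpath_mem_hseg a1⟩
  exact ⟨a3, sub_cmp h hu hx a3 (by omega), a2⟩

theorem mem_hseg_of_child (hu : u ∈ HH S I) (hx : x ∈ h.Sub u v) (hy : y ∈ h.Sub u v)
    (hx' : x ≠ v) (hy' : y ≠ v)
    (hne : h.hpath u x (h.hlen u v + 1) ≠ h.hpath u y (h.hlen u v + 1)) : v ∈ h.hseg x y := by
  obtain ⟨m, m1, m2, m3, -⟩ := h.exists_median hu hx.1 hy.1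
  have hm : m ∈ h.Sub u v :=
    h.hseg_subset (conn_sub h hu (sub_top h hu hx)) (fun _ hz => hz.1) hx hy m3
  by_contra hc
  have hmv : m ≠ v := fun e => hc (e ▸ m3)
  obtain ⟨c1, -, c3⟩ := child h hu hm hmv
  obtain ⟨a1, -, a3⟩ := child h hu hx hx'
  obtain ⟨b1, -, b3⟩ := child h hu hy hy'
  have e1 := sub_eq h hu (sub_cmp h hu (sub_trans h hu c1 ⟨hx.1, m1⟩) a1 (by omega)) (by omega)
  have e2 := sub_eq h hu (sub_cmp h hu (sub_trans h hu c1 ⟨hy.1, m2⟩) b1 (by omega)) (by omega)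
  exact hne (e1.trans e2.symm)

theorem anti_depth (hu : u ∈ HH S I) {X Y : Set V} {d : ℕ}
    (hX : ∀ x ∈ X, x ∈ HH S I ∧ d + 2 ≤ h.hlen u x) (hY : ∀ y ∈ Y, y ∈ HH S I ∧ h.hlen u y ≤ d) :
    Anti G X Y := by
  intro x hx y hy
  obtain ⟨a1, a2⟩ := hX x hx
  obtain ⟨b1, b2⟩ := hY y hy
  refine ⟨fun e => ?_, fun e => ?_⟩
  · subst e; omega
  · have := h.hlen_adj hu a1 b1 e
    omega

end

/-! ### the two sides -/

section
variable {h : Setup G S I} {u : V} {L R : Set V}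

theorem sides_symm (s : h.Sides u L R) : h.Sides u R L :=
  ⟨s.white, s.cR, s.cL, s.anti.symm, by rw [Set.union_comm]; exact s.cover⟩

theorem sides_mem (s : h.Sides u L R) {x : V} (hx : x ∈ L) : x ∈ HH S I ∧ x ≠ u :=
  s.cover.subset (Or.inl hx)

theorem sides_path (s : h.Sides u L R) {x y : V} (hx : x ∈ HH S I) (hy : y ∈ h.hseg u x)
    (hyu : y ≠ u) : x ∈ L ↔ y ∈ L := by
  have hu := white_mem_HH s.white
  have hne : u ≠ x := by
    rintro rfl
    rw [h.hseg_self hu] at hy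
    exact hyu hy
  have hx' : x ∈ h.hseg u x \ {u} := ⟨h.right_mem_hseg hu hx, hne.symm⟩
  have hy' : y ∈ h.hseg u x \ {u} := ⟨hy, hyu⟩
  rcases (h.conn_hseg_diff_left hu hx hne).subset_or s.anti (by
    rw [s.cover]; exact Set.sdiff_subset_sdiff_left (h.hseg_subset_H hu hx)) with a | a
  · exact ⟨fun _ => a hy', fun _ => a hx'⟩
  · exact ⟨fun b => (s.anti.notMem b (a hx')).elim, fun b => (s.anti.notMem b (a hy')).elim⟩

theorem sub_side (s : h.Sides u L R) {a : V} (ha : a ∈ L) : h.Sub u a ⊆ L := fun _ hx =>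
  (sides_path s hx.1 hx.2 (sides_mem s ha).2).2 ha

theorem sub_root (s : h.Sides u L R) {a b : V} (ha : a ∈ L) (hb : b ∈ R) :
    h.Sub b a ⊆ h.Sub u a := by
  intro x hx
  have hu := white_mem_HH s.white
  have hbH := (sides_mem (sides_symm s) hb).1
  refine ⟨hx.1, (h.hseg_subset_union hbH hu hx.1 hx.2).resolve_left fun hc => ?_⟩
  rw [h.hseg_symm hu hbH] at hc
  exact s.anti.notMem ((sides_path s hbH hc (sides_mem s ha).2).2 ha) hb

theorem exists_root (s : h.Sides u L R) : ∃ r ∈ L, L ⊆ h.Sub u r := by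
  have hu := white_mem_HH s.white
  have key : ∀ x ∈ L, h.hpath u x 1 ∈ L ∧ G.Adj u (h.hpath u x 1) ∧ h.hpath u x 1 ∈ h.hseg u x :=
    fun x hx => by
      obtain ⟨a1, a2⟩ := sides_mem s hx
      have a3 := h.hpath_one_mem hu a1 a2.symm
      exact ⟨(sides_path s a1 a3.1 a3.2).1 hx, h.adj_hpath_one hu a1 a2.symm, a3.1⟩
  obtain ⟨x₀, hx₀⟩ := s.cL.nonempty
  refine ⟨_, (key x₀ hx₀).1, fun x hx => ⟨(sides_mem s hx).1, ?_⟩⟩
  rw [h.one_nbr s.cL (fun y hy => (sides_mem s hy).1) hu (fun hc => (sides_mem s hc).2 rfl)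
    (key x₀ hx₀).1 (key x hx).1 (key x₀ hx₀).2.1 (key x hx).2.1]
  exact (key x hx).2.2

theorem ear_nbr (s : h.Sides u L R) {F : Ear V} (hF : h.IsEar F) (ha : F.a ∈ L) (hb : F.b ∈ R)
    {i : ℕ} (hi : i ≤ F.n) {x : V} (hx : x ∈ L) (e : G.Adj (F.f i) x) :
    i = 0 ∧ x ∈ h.Sub u F.a := by
  rcases hF.nbr i hi x (sides_mem s hx).1 e with ⟨a1, a2⟩ | ⟨-, a2⟩
  · exact ⟨a1, sub_root s ha hb a2⟩
  · exact (s.anti.notMem hx (sub_side (sides_symm s) hb (sub_root (sides_symm s) hb ha a2))).elim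

theorem ear_touch (s : h.Sides u L R) {F : Ear V} (hF : h.IsEar F) (ha : F.a ∈ L) (hb : F.b ∈ R)
    {X : Set V} (hX : X ⊆ L) (t : Touch G F.set X) : ∃ x ∈ X, G.Adj (F.f 0) x ∧ x ∈ h.Sub u F.a := by
  obtain ⟨_, ⟨i, -, hi, rfl⟩, x, hx, e | e⟩ := t
  · exact (hF.out i hi (e ▸ (sides_mem s (hX hx)).1)).elim
  · obtain ⟨rfl, a⟩ := ear_nbr s hF ha hb hi (hX hx) e
    exact ⟨x, hx, e, a⟩

theorem ear_tail (s : h.Sides u L R) {F : Ear V} (hF : h.IsEar F) (ha : F.a ∈ L) (hb : F.b ∈ R) :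
    Conn G (seg F.f 1 F.n ∪ R) ∧ F.f 0 ∈ cN G (seg F.f 1 F.n ∪ R) ∧
      Anti G L (seg F.f 1 F.n ∪ R) := by
  refine ⟨?_, ?_, Anti.union_right ?_ s.anti⟩
  · rcases Nat.eq_zero_or_pos F.n with h0 | h0
    · rw [seg_eq_empty (by omega), Set.empty_union]; exact s.cR
    · exact (hF.ip.conn_seg h0 le_rfl).un s.cR (Touch.of_adj (apply_mem_seg h0 le_rfl) hb hF.eb)
  · rcases Nat.eq_zero_or_pos F.n with h0 | h0
    · exact Or.inr ⟨F.b, Or.inr hb, by have := hF.eb; rwa [h0] at this⟩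
    · exact Or.inr ⟨F.f 1, Or.inl (apply_mem_seg le_rfl h0), hF.ip.adj_succ h0⟩
  · rintro x hx _ ⟨i, i1, hi, rfl⟩
    refine ⟨fun e => hF.out i hi (e ▸ (sides_mem s hx).1), fun e => ?_⟩
    have := (ear_nbr s hF ha hb hi hx e.symm).1
    omega

/-- two ears hanging at ancestors of a deep node do not both see the subtree of that node -/
theorem no_two (s : h.Sides u L R) {F F' : Ear V} (hF : h.IsEar F) (ha : F.a ∈ L) (hb : F.b ∈ R)
    (hF' : h.IsEar F') (ha' : F'.a ∈ L) (hb' : F'.b ∈ R) (hA : Anti G F.set F'.set) {z : V}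
    (hz : z ∈ L) (h1 : F'.a ∈ h.Sub u F.a) (h2 : h.hlen u F'.a + 2 ≤ h.hlen u z)
    (t : Sees G (F.f 0) (h.Sub u z)) (t' : Sees G (F'.f 0) (h.Sub u z)) : False := by
  have hu := white_mem_HH s.white
  have aH := (sides_mem s ha).1
  have aH' := (sides_mem s ha').1
  obtain ⟨c1, c2, c3⟩ := ear_tail s hF ha hb
  obtain ⟨d1, d2, d3⟩ := ear_tail s hF' ha' hb'
  obtain ⟨r, hr⟩ := s.cR.nonempty
  have m0 : F.f 0 ∈ F.set := apply_mem_seg le_rfl (Nat.zero_le _)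
  have m0' : F'.f 0 ∈ F'.set := apply_mem_seg le_rfl (Nat.zero_le _)
  have hZ := c3.union_right d3
  refine h.ehf.theta (hA.ne m0 m0') (hA.not_adj m0 m0') (conn_sub h hu (sides_mem s hz).1)
    (h.conn_hseg aH aH') (c1.un d1 (Touch.of_mem (Or.inr hr) (Or.inr hr)))
    (anti_depth h hu (d := h.hlen u F'.a)
      (fun x hx => ⟨hx.1, h2.trans (sub_depth h hu hx)⟩) fun y hy => ?_)
    (hZ.mono (sub_side s hz) le_rfl)
    (hZ.mono (h.hseg_subset s.cL (fun y hy => (sides_mem s hy).1) ha ha') le_rfl)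
    (Or.inr t) (Or.inr t') (Or.inr ⟨_, h.left_mem_hseg aH aH', hF.ea⟩)
    (Or.inr ⟨_, h.right_mem_hseg aH aH', hF'.ea⟩) (cN_mono Set.subset_union_left c2)
    (cN_mono Set.subset_union_right d2)
  have := h.hseg_subset_hseg hu aH' h1.2 (h.right_mem_hseg hu aH') hy
  exact ⟨h.hseg_subset_H hu aH' this, sub_depth h hu ⟨aH', this⟩⟩

end

/-! ### star or chain -/

/-- the bound for the tree step -/
def cb (n : ℕ) : ℕ → ℕ
  | 0 => 0
  | k + 1 => n * cb n k + 1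

theorem tree_step [Finite V] (h : Setup G S I) {u : V} (hu : u ∈ HH S I) {ι : Type} (a : ι → V)
    (n k : ℕ) : ∀ (r : V) (s : Finset ι), Set.InjOn a s → (∀ i ∈ s, a i ∈ h.Sub u r) →
      cb n k < s.card →
      (∃ (φ : ℕ → ι) (v : V), v ∈ h.Sub u r ∧ (∀ i, i < n → φ i ∈ s ∧ a (φ i) ∈ h.Sub u v ∧
        a (φ i) ≠ v) ∧ ∀ i j, i < n → j < n → i ≠ j → φ i ≠ φ j ∧ v ∈ h.hseg (a (φ i)) (a (φ j))) ∨
      ∃ (φ : ℕ → ι) (al : ℕ → V), (∀ i, i < k → φ i ∈ s ∧ al i ∈ h.Sub u r ∧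
        a (φ i) ∈ h.Sub u (al i)) ∧ ∀ i j, i < j → j < k → al j ∈ h.Sub u (al i) ∧ al j ≠ al i ∧
          a (φ i) ∉ h.Sub u (al j) ∧
          (a (φ i) = al i ∨ Disjoint (h.Sub u (a (φ i))) (h.Sub u (al j))) := by
  classical
  induction k with
  | zero =>
    intro r s _ _ hc
    obtain ⟨i, -⟩ := Finset.card_pos.1 (show 0 < s.card from hc)
    exact Or.inr ⟨fun _ => i, fun _ => r, fun _ hi => by omega, fun _ _ _ hj => by omega⟩
  | succ k ih =>
    intro r s hinj hs hc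
    rw [cb] at hc
    obtain ⟨i₀, hi₀⟩ := Finset.card_pos.1 (show 0 < s.card by omega)
    obtain ⟨v, ⟨v1, v2⟩, vmax⟩ := Set.exists_max_image
      {v | v ∈ h.Sub u r ∧ ∀ i ∈ s, a i ∈ h.Sub u v} (h.hlen u) (Set.toFinite _)
      ⟨r, sub_refl h hu (sub_top h hu (hs i₀ hi₀)), hs⟩
    set ch : ι → V := fun i => h.hpath u (a i) (h.hlen u v + 1) with hch
    set s₀ := s.filter fun i => a i ≠ v with hs₀
    have hcard : s.card ≤ s₀.card + 1 := by
      have e := Finset.card_filter_add_card_filter_not (s := s) (fun i => a i ≠ v)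
      have : (s.filter fun i => ¬ a i ≠ v).card ≤ 1 := Finset.card_le_one.2 fun i hi j hj => by
        rw [Finset.mem_filter, not_not] at hi hj
        exact hinj hi.1 hj.1 (hi.2.trans hj.2.symm)
      rw [← hs₀] at e
      omega
    have hm : ∀ i ∈ s₀, i ∈ s ∧ a i ≠ v := fun i hi => Finset.mem_filter.1 hi
    by_cases hT : n ≤ (s₀.image ch).card
    · left
      obtain ⟨T, hT1, hT2⟩ := Finset.exists_subset_card_eq hT
      have hrep : ∀ c ∈ T, ∃ i, i ∈ s₀ ∧ ch i = c := fun c hc => Finset.mem_image.1 (hT1 hc)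
      have : Nonempty ι := ⟨i₀⟩
      choose! g hg using hrep
      let e := (T.equivFinOfCardEq hT2).symm
      refine ⟨fun i => if hi : i < n then g (e ⟨i, hi⟩) else i₀, v, v1, fun i hi => ?_,
        fun i j hi hj hij => ?_⟩
      · simp only [dif_pos hi]
        have := hm _ (hg _ (e ⟨i, hi⟩).2).1
        exact ⟨this.1, v2 _ this.1, this.2⟩
      · simp only [dif_pos hi, dif_pos hj]
        have b1 := hg _ (e ⟨i, hi⟩).2
        have b2 := hg _ (e ⟨j, hj⟩).2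
        have hne : ch (g (e ⟨i, hi⟩)) ≠ ch (g (e ⟨j, hj⟩)) := by
          rw [b1.2, b2.2]
          intro hc
          exact hij (congrArg Fin.val (e.injective (Subtype.ext hc)))
        exact ⟨fun hc => hne (by rw [hc]), mem_hseg_of_child h hu (v2 _ (hm _ b1.1).1)
          (v2 _ (hm _ b2.1).1) (hm _ b1.1).2 (hm _ b2.1).2 hne⟩
    · obtain ⟨c, hc1, hc2⟩ := Finset.exists_lt_card_fiber_of_mul_lt_card_of_maps_to
        (s := s₀) (t := s₀.image ch) (f := ch) (n := cb n k)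
        (fun i hi => Finset.mem_image_of_mem _ hi) (by
          have := Nat.mul_le_mul_right (cb n k) (not_le.1 hT).le
          omega)
      obtain ⟨i₁, hi₁, rfl⟩ := Finset.mem_image.1 hc1
      obtain ⟨-, c2, c3⟩ := child h hu (v2 _ (hm _ hi₁).1) (hm _ hi₁).2
      change ch i₁ ∈ _ at c2
      change h.hlen u (ch i₁) = _ at c3
      have cr : ch i₁ ∈ h.Sub u r := sub_trans h hu v1 c2
      obtain ⟨j₀, hj₀, hj₁⟩ : ∃ j ∈ s, a j ∉ h.Sub u (ch i₁) := by
        by_contra hcon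
        push Not at hcon
        have := vmax _ ⟨cr, hcon⟩
        omega
      have hsub : (s₀.filter fun i => ch i = ch i₁) ⊆ s := fun i hi =>
        (hm _ (Finset.mem_filter.1 hi).1).1
      rcases ih (ch i₁) _ (hinj.mono (Finset.coe_subset.2 hsub)) (fun i hi => by
          obtain ⟨b1, b2⟩ := Finset.mem_filter.1 hi
          rw [← b2]
          exact (child h hu (v2 _ (hm _ b1).1) (hm _ b1).2).1) hc2 with
        ⟨φ, w, w1, w2, w3⟩ | ⟨φ, al, w1, w2⟩
      · exact Or.inl ⟨φ, w, sub_trans h hu cr w1,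
          fun i hi => ⟨hsub (w2 i hi).1, (w2 i hi).2⟩, w3⟩
      right
      refine ⟨fun i => Nat.casesOn i j₀ φ, fun i => Nat.casesOn i v al, ?_, ?_⟩
      · rintro (_ | i) hi
        · exact ⟨hj₀, v1, v2 _ hj₀⟩
        · obtain ⟨b1, b2, b3⟩ := w1 i (by omega)
          exact ⟨hsub b1, sub_trans h hu cr b2, b3⟩
      · rintro (_ | i) (_ | j) hij hj
        · omega
        · have b2 := (w1 j (by omega)).2.1
          have b3 := sub_depth h hu b2
          refine ⟨sub_trans h hu c2 b2, fun e => ?_, fun e => hj₁ (sub_trans h hu b2 e), ?_⟩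
          · change al j = v at e
            rw [e] at b3
            omega
          · refine (em (a j₀ = v)).imp id fun hne => Set.disjoint_left.2 fun x x1 x2 => hj₁ ?_
            have b4 := sub_lt h hu (v2 _ hj₀) hne
            exact sub_cmp h hu (sub_trans h hu b2 x2) x1 (by omega)
        · omega
        · exact w2 i j (by omega) (by omega)

theorem exists_enum {t : Finset ℕ} {n : ℕ} (ht : t.card = n) :
    ∃ ψ : ℕ → ℕ, (∀ i, i < n → ψ i ∈ t) ∧ ∀ i j, i < j → j < n → ψ i < ψ j := by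
  refine ⟨fun i => if hi : i < n then t.orderEmbOfFin ht ⟨i, hi⟩ else 0, fun i hi => ?_,
    fun i j hij hj => ?_⟩
  · simp only [dif_pos hi]
    exact t.orderEmbOfFin_mem ht _
  · simp only [dif_pos hj, dif_pos (hij.trans hj)]
    exact (t.orderEmbOfFin ht).strictMono hij

end H15

open H15 in
theorem sideStmt : SideStmt := by
  intro n
  refine ⟨cb n ((4 + n).choose 4) + 1, ?_⟩
  intro V _ G S I h u L R ι s F hs hg hab hc
  have hu := white_mem_HH hs.white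
  obtain ⟨r, hr, hLr⟩ := exists_root hs
  have hrL := sub_side hs hr
  rcases tree_step h hu (fun i => (F i).a) n ((4 + n).choose 4) r s
      (fun i hi j hj e => by_contra fun hne => (hg.2 i hi j hj hne).1 e)
      (fun i hi => hLr (hab i hi).1) hc with ⟨φ, v, v1, v2, v3⟩ | ⟨φ, al, w1, w2⟩
  · refine ⟨φ, fun _ => v, fun i hi => (v2 i hi).1,
      fun i j hi hj e => by_contra fun hne => (v3 i j hi hj hne).1 e,
      ⟨fun _ _ => hrL v1, fun i hi => (v2 i hi).2.1, fun _ _ _ _ => sub_refl h hu v1.1⟩,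
      Or.inr fun i j hi hj => ⟨rfl, (v2 i hi).2.2, fun hne => (v3 i j hi hj hne).2⟩⟩
  have hφ : ∀ i j, i < j → j < (4 + n).choose 4 → φ i ≠ φ j := fun i j hij hj e =>
    (w2 i j hij hj).2.2.1 (by rw [e]; exact (w1 j hj).2.2)
  let ar : ℕ → ℕ → Prop := fun i j => i < j ∧ Touch G (F (φ i)).set (h.Sub u (al j))
  have har : ∀ i j, j < (4 + n).choose 4 → ar i j →
      (F (φ i)).a = al i ∧ Sees G ((F (φ i)).f 0) (h.Sub u (al j)) := by
    rintro i j hj ⟨hij, t⟩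
    have hi := (w1 i (by omega)).1
    obtain ⟨x, x1, x2, x3⟩ := ear_touch hs (hg.1.1 _ hi) (hab _ hi).1 (hab _ hi).2
      (sub_side hs (hrL (w1 j hj).2.1)) t
    exact ⟨(w2 i j hij hj).2.2.2.resolve_right fun hd => Set.disjoint_left.1 hd x3 x1,
      x, x1, x2⟩
  rcases ramsey (fun i j => ar i j ∨ ar j i) (fun _ _ e => e.symm) 4 n
      (Finset.range ((4 + n).choose 4)) (by rw [Finset.card_range]) with
    ⟨t, t1, t2, t3⟩ | ⟨t, t1, t2, t3⟩
  · exfalso
    obtain ⟨ψ, p1, p2⟩ := exists_enum t2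
    have q : ∀ i, i < 4 → ψ i < (4 + n).choose 4 := fun i hi => Finset.mem_range.1 (t1 (p1 i hi))
    have q' : ∀ i, i < 3 → ar (ψ i) (ψ 3) := fun i hi => by
      have := p2 i 3 hi (by omega)
      exact (t3 _ (p1 i (by omega)) _ (p1 3 (by omega)) this.ne).resolve_right
        fun e => absurd e.1 (by omega)
    obtain ⟨a1, a2⟩ := har _ _ (q 3 (by omega)) (q' 0 (by omega))
    obtain ⟨b1, b2⟩ := har _ _ (q 3 (by omega)) (q' 1 (by omega))
    have m0 := (w1 _ (q 0 (by omega))).1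
    have m1 := (w1 _ (q 1 (by omega))).1
    have l01 := p2 0 1 (by omega) (by omega)
    obtain ⟨c1, c2, -⟩ := w2 _ _ (p2 1 2 (by omega) (by omega)) (q 2 (by omega))
    obtain ⟨d1, d2, -⟩ := w2 _ _ (p2 2 3 (by omega) (by omega)) (q 3 (by omega))
    have e1 := sub_lt h hu c1 c2
    have e2 := sub_lt h hu d1 d2
    refine no_two hs (hg.1.1 _ m0) (hab _ m0).1 (hab _ m0).2 (hg.1.1 _ m1) (hab _ m1).1
      (hab _ m1).2 (hg.1.2 _ m0 _ m1 (hφ _ _ l01 (q 1 (by omega)))) (hrL (w1 _ (q 3 (by omega))).2.1)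
      ?_ ?_ a2 b2
    · rw [a1, b1]; exact (w2 _ _ l01 (q 1 (by omega))).1
    · rw [b1]; omega
  · obtain ⟨ψ, p1, p2⟩ := exists_enum t2
    have q : ∀ i, i < n → ψ i < (4 + n).choose 4 := fun i hi => Finset.mem_range.1 (t1 (p1 i hi))
    refine ⟨fun i => φ (ψ i), fun i => al (ψ i), fun i hi => (w1 _ (q i hi)).1,
      fun i j hi hj e => ?_, ⟨fun i hi => hrL (w1 _ (q i hi)).2.1, fun i hi => (w1 _ (q i hi)).2.2,
        fun i j hij hj => (w2 _ _ (p2 i j hij hj) (q j hj)).1⟩,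
      Or.inl fun i j hij hj => ⟨(w2 _ _ (p2 i j hij hj) (q j hj)).2.1, not_touch.1 fun e => ?_⟩⟩
    · rcases lt_trichotomy i j with c | c | c
      · exact (hφ _ _ (p2 i j c hj) (q j hj) e).elim
      · exact c
      · exact (hφ _ _ (p2 j i c hi) (q i hi) e.symm).elim
    · have := p2 i j hij hj
      exact t3 _ (p1 i (by omega)) _ (p1 j hj) this.ne (Or.inl ⟨this, e⟩)

end Pool.Agent.Ehf
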